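import Pool.Agent.Mob.Stmts3
import Pool.Agent.Helper65_Mob.Fv2

/-!
# Module AFV: approximation of the infinite volume Green function by a cube
-/

set_option autoImplicit false

open MeasureTheory ProbabilityTheory Function

open scoped ENNReal BigOperators InnerProductSpace

noncomputable section

namespace Pool.Agent.Mob.H76

open Pool.Agent.Anderson Pool.Agent.Loc Pool.Agent.Helper54.Bal Pool.Agent.Mob

theorem afv (hcth : CthStmt) (hgzb : GzbStmt) : AfvStmt := by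
  intro d V η E a n y hη ha hea hy
  have hC := hcth d V η E a hη ha hea
  obtain ⟨Λ, hΛ⟩ : ∃ Λ, Λ = box (0 : Site d) n := ⟨_, rfl⟩
  have hx : (0 : Site d) ∈ Λ := by
    rw [hΛ, mem_box]
    simp [sd_self]
  have hout : ∀ u, u ∉ Λ → n ≤ sd (0 : Site d) u := by
    intro u hu
    rw [hΛ, mem_box] at hu
    omega
  rw [← hΛ] at hy ⊢
  obtain ⟨z, hzz⟩ : ∃ z, z = zz η E := ⟨_, rfl⟩
  rw [← hzz] at hC ⊢
  have him : z.im = η := by
    rw [hzz]
    unfold zz
    simp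
  have hz : z.im ≠ 0 := by
    rw [him]
    exact hη.ne'
  obtain ⟨φ, hφ⟩ : ∃ φ : L2 d, φ = G V z (del 0) := ⟨_, rfl⟩
  rw [← hφ] at hC ⊢
  -- the tail of the infinite volume Green function
  obtain ⟨s, hs⟩ : ∃ s : Site d → ℝ, s = fun u => if u ∈ Λ then 0 else ‖φ u‖ ^ 2 := ⟨_, rfl⟩
  have hs0 : ∀ u, 0 ≤ s u := by
    intro u
    rw [hs]
    simp only
    split_ifs
    · exact le_rfl
    · positivity
  have hsum : Summable s := by
    refine Summable.of_nonneg_of_le hs0 (fun u => ?_) (L2.summable_sq φ)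
    rw [hs]
    simp only
    split_ifs
    · positivity
    · exact le_rfl
  obtain ⟨S, hS⟩ : ∃ S : ℝ, S = ∑' u, s u := ⟨_, rfl⟩
  have hS0 : 0 ≤ S := by
    rw [hS]
    exact tsum_nonneg hs0
  obtain ⟨q, hq⟩ : ∃ q : ℝ, q = 2 / η * Real.exp (-a * n) := ⟨_, rfl⟩
  have hq0 : 0 ≤ q := by
    rw [hq]
    positivity
  have hSq : S ≤ q ^ 2 := by
    have h1 : ENNReal.ofReal S ≤ ENNReal.ofReal (q ^ 2) := by
      rw [hS, ENNReal.ofReal_tsum_of_nonneg hs0 hsum]
      calc ∑' u, ENNReal.ofReal (s u) ≤ ∑' u : Site d, ENNReal.ofReal (Real.exp (-(2 * a * n))) *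
            ENNReal.ofReal (Real.exp (2 * a * sd 0 u) * ‖φ u‖ ^ 2) := by
            refine ENNReal.tsum_le_tsum fun u => ?_
            rw [← ENNReal.ofReal_mul (by positivity)]
            apply ENNReal.ofReal_le_ofReal
            rw [hs]
            simp only
            split_ifs with hu
            · positivity
            · rw [← mul_assoc, ← Real.exp_add]
              have h2 : (n : ℝ) ≤ sd (0 : Site d) u := by exact_mod_cast hout u hu
              have h3 : 1 ≤ Real.exp (-(2 * a * n) + 2 * a * sd (0 : Site d) u) := by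
                apply Real.one_le_exp
                nlinarith
              exact le_mul_of_one_le_left (sq_nonneg _) h3
        _ = ENNReal.ofReal (Real.exp (-(2 * a * n))) *
            ∑' u : Site d, ENNReal.ofReal (Real.exp (2 * a * sd 0 u) * ‖φ u‖ ^ 2) :=
            ENNReal.tsum_mul_left
        _ ≤ ENNReal.ofReal (Real.exp (-(2 * a * n))) * ENNReal.ofReal (4 / η ^ 2) := by
            gcongr
        _ = ENNReal.ofReal (q ^ 2) := by
            rw [← ENNReal.ofReal_mul (by positivity)]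
            congr 1
            rw [hq, mul_pow, ← Real.exp_nat_mul]
            rw [show ((2 : ℕ) : ℝ) * (-a * n) = -(2 * a * n) by push_cast; ring]
            ring
    exact (ENNReal.ofReal_le_ofReal_iff (by positivity)).1 h1
  -- the part of the Green function outside
  have hmem : Memℓp (fun u : Site d => if u ∈ Λ then (0 : ℂ) else φ u) 2 := by
    rw [memℓp_iff]
    refine Summable.of_nonneg_of_le (fun u => by positivity) (fun u => ?_) (L2.summable_sq φ)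
    split_ifs
    · rw [norm_zero, zero_pow two_ne_zero]
      exact sq_nonneg _
    · exact le_rfl
  obtain ⟨ψ, hψ⟩ : ∃ ψ : L2 d, ψ = ⟨_, hmem⟩ := ⟨_, rfl⟩
  have hψa : ∀ u, ψ u = if u ∈ Λ then (0 : ℂ) else φ u := by
    intro u
    rw [hψ]
  have hψ2 : ‖ψ‖ ^ 2 ≤ S := by
    rw [L2.norm_sq, hS]
    refine Summable.tsum_le_tsum (fun u => ?_) (L2.summable_sq ψ) hsum
    rw [hψa, hs]
    simp only
    by_cases hu : u ∈ Λ
    · rw [if_pos hu, if_pos hu, norm_zero, zero_pow two_ne_zero]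
    · rw [if_neg hu, if_neg hu]
  obtain ⟨b, hb⟩ : ∃ b : Site d → ℂ, b = lap (fun v => if v ∈ Λ then 0 else φ v) := ⟨_, rfl⟩
  have hbL : ∀ v, b v = Lap d ψ v := by
    intro v
    rw [Lap_apply, hb]
    congr 1
    funext u
    exact (hψa u).symm
  have hψq : ‖ψ‖ ≤ q := by
    have := hψ2.trans hSq
    exact (pow_le_pow_iff_left₀ (norm_nonneg _) hq0 (by norm_num)).1 this
  -- the Euclidean vectors
  obtain ⟨w, hw⟩ : ∃ w : Λ → ℂ, w = (z • (1 : Matrix Λ Λ ℂ) - HC V Λ)⁻¹.mulVec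
    (fun v : Λ => b v) := ⟨_, rfl⟩
  have hdet := ((hgzb d V Λ 0 0).2.1 z hz).1
  have hexp : gz V Λ z 0 y = -φ y + w ⟨y, hy⟩ := by
    rw [hw]
    exact H65.gz_expand hgzb V Λ z hz 0 y hx hy φ hφ b hb
  have hnb : ‖(WithLp.toLp 2 (fun v : Λ => b v) : EuclideanSpace ℂ Λ)‖ ≤ 2 * d * q := by
    rw [EuclideanSpace.norm_eq]
    have h1 : ∑ v : Λ, ‖b v‖ ^ 2 ≤ (2 * d * q) ^ 2 := by
      calc ∑ v : Λ, ‖b v‖ ^ 2 = ∑ v : Λ, ‖Lap d ψ v‖ ^ 2 :=
            Finset.sum_congr rfl fun v _ => by rw [hbL]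
        _ ≤ ‖Lap d ψ‖ ^ 2 := H65.sum_le_norm Λ _
        _ ≤ (2 * d * ‖ψ‖) ^ 2 := pow_le_pow_left₀ (norm_nonneg _) (H65.norm_Lap_le ψ) 2
        _ ≤ (2 * d * q) ^ 2 := by gcongr
    exact Real.sqrt_le_iff.2 ⟨by positivity, h1⟩
  have hnw : η * ‖(WithLp.toLp 2 w : EuclideanSpace ℂ Λ)‖ ≤ 2 * d * q := by
    have h : ∀ j, η ≤ ‖z - ((HC_herm V Λ).eigenvalues j : ℂ)‖ := by
      intro j
      have := Complex.abs_im_le_norm (z - ((HC_herm V Λ).eigenvalues j : ℂ))
      rw [Complex.sub_im, Complex.ofReal_im, sub_zero, him, abs_of_pos hη] at this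
      exact this
    have h1 := H11.norm_ge (HC V Λ) (HC_herm V Λ) z η hη.le h (WithLp.toLp 2 w)
    rw [H11.lin_eq, hw, Matrix.mulVec_mulVec, Matrix.mul_nonsing_inv _
      (isUnit_iff_ne_zero.2 hdet), Matrix.one_mulVec, ← hw] at h1
    exact h1.trans hnb
  have hwy : ‖w ⟨y, hy⟩‖ ≤ 2 * d * q / η := by
    have h3 : ‖w ⟨y, hy⟩‖ ≤ ‖(WithLp.toLp 2 w : EuclideanSpace ℂ Λ)‖ :=
      PiLp.norm_apply_le (WithLp.toLp 2 w : EuclideanSpace ℂ Λ) ⟨y, hy⟩
    rw [le_div_iff₀ hη, mul_comm]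
    exact (mul_le_mul_of_nonneg_left h3 hη.le).trans hnw
  have hφy : φ y = -gz V Λ z 0 y + w ⟨y, hy⟩ := by
    rw [hexp]
    ring
  calc ‖φ y‖ = ‖-gz V Λ z 0 y + w ⟨y, hy⟩‖ := by rw [← hφy]
    _ ≤ ‖-gz V Λ z 0 y‖ + ‖w ⟨y, hy⟩‖ := norm_add_le _ _
    _ ≤ ‖gz V Λ z 0 y‖ + 2 * d * q / η := by
        rw [norm_neg]
        gcongr
    _ = ‖gz V Λ z 0 y‖ + 4 * d / η ^ 2 * Real.exp (-a * n) := by
        rw [hq]
        field_simp
        ring

end Pool.Agent.Mob.H76
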